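import Pool.Agent.R121.ExCode

set_option autoImplicit false

/-!
# Wilf-equivalence of `{45123, 45213}` and `{12345, 12354}`
-/

namespace Pool.Agent.Results.MP_b2be16_co.PairWilf

open Finset Pool.Agent.R121 Pool.Agent.R121.ExGen

/-- `π` contains the pattern with one-line notation `q` -/
def Contains {n : ℕ} (q : Fin 5 → ℕ) (π : Equiv.Perm (Fin n)) : Prop :=
  ∃ i : Fin 5 → Fin n, StrictMono i ∧ ∀ s t, π (i s) < π (i t) ↔ q s < q t

/-- the number of permutations avoiding both `p` and `q` -/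
noncomputable def av (n : ℕ) (p q : Fin 5 → ℕ) : ℕ :=
  Nat.card {π : Equiv.Perm (Fin n) // ¬ Contains p π ∧ ¬ Contains q π}

variable {n : ℕ}

/-! ### Symmetries -/

lemma contains_rev {q q' : Fin 5 → ℕ} (h : ∀ s, q' s = q (Fin.rev s)) (π : Equiv.Perm (Fin n)) :
    Contains q (π * Fin.revPerm) ↔ Contains q' π := by
  constructor
  · rintro ⟨i, hi, hp⟩
    refine ⟨fun s => Fin.rev (i (Fin.rev s)), ?_, ?_⟩
    · intro s t hst
      exact Fin.rev_lt_rev.2 (hi (Fin.rev_lt_rev.2 hst))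
    · intro s t
      rw [h, h, ← hp]
      rfl
  · rintro ⟨i, hi, hp⟩
    refine ⟨fun s => Fin.rev (i (Fin.rev s)), ?_, ?_⟩
    · intro s t hst
      exact Fin.rev_lt_rev.2 (hi (Fin.rev_lt_rev.2 hst))
    · intro s t
      have := hp (Fin.rev s) (Fin.rev t)
      rw [h, h, Fin.rev_rev, Fin.rev_rev] at this
      rw [← this]
      simp

lemma contains_compl {q q' : Fin 5 → ℕ} (h : ∀ s t, q s < q t ↔ q' t < q' s)
    (π : Equiv.Perm (Fin n)) : Contains q (Fin.revPerm * π) ↔ Contains q' π := by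
  constructor
  · rintro ⟨i, hi, hp⟩
    refine ⟨i, hi, ?_⟩
    intro s t
    rw [← h, ← hp]
    simp
  · rintro ⟨i, hi, hp⟩
    refine ⟨i, hi, ?_⟩
    intro s t
    rw [h, ← hp]
    simp

lemma contains_inv {q q' : Fin 5 → ℕ} (c : Equiv.Perm (Fin 5)) (h : ∀ s t, q s < q t ↔ c s < c t)
    (h' : ∀ s t, q' s < q' t ↔ c⁻¹ s < c⁻¹ t) (π : Equiv.Perm (Fin n)) :
    Contains q π⁻¹ ↔ Contains q' π := by
  constructor
  · rintro ⟨i, hi, hp⟩
    refine ⟨fun t => π⁻¹ (i (c⁻¹ t)), ?_, ?_⟩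
    · intro s t hst
      simp only
      rw [hp, h]
      simpa using hst
    · intro s t
      have e : ∀ y : Fin n, π (π⁻¹ y) = y := fun y => Equiv.apply_symm_apply π y
      rw [h', e, e, hi.lt_iff_lt]
  · rintro ⟨i, hi, hp⟩
    refine ⟨fun t => π (i (c t)), ?_, ?_⟩
    · intro s t hst
      simp only
      rw [hp, h']
      simpa using hst
    · intro s t
      have e : ∀ y : Fin n, π⁻¹ (π y) = y := fun y => Equiv.symm_apply_apply π y
      rw [h, e, e, hi.lt_iff_lt]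

lemma av_congr (e : Equiv.Perm (Fin n) ≃ Equiv.Perm (Fin n)) {p q p' q' : Fin 5 → ℕ}
    (h1 : ∀ π, Contains p (e π) ↔ Contains p' π) (h2 : ∀ π, Contains q (e π) ↔ Contains q' π) :
    av n p q = av n p' q' := by
  unfold av
  symm
  apply Nat.card_congr
  apply Equiv.subtypeEquiv e
  intro π
  rw [h1, h2]

/-! ### Explicit occurrences -/

lemma contains_iff (q : Fin 5 → ℕ) (c : Fin 5 → Fin 5) (hc : ∀ s t, s < t → q (c s) < q (c t))
    (hc' : ∀ s, ∃ t, c t = s) (π : Equiv.Perm (Fin n)) :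
    Contains q π ↔ ∃ x : Fin 5 → ℕ, StrictMono x ∧ (∀ s, x s < n) ∧
      StrictMono (fun t => fn π (x (c t))) := by
  constructor
  · rintro ⟨i, hi, hp⟩
    refine ⟨fun s => i s, ?_, fun s => (i s).2, ?_⟩
    · intro s t hst
      exact hi hst
    · intro s t hst
      simp only
      rw [fn_fin, fn_fin]
      exact (hp _ _).2 (hc s t hst)
  · rintro ⟨x, h1, h2, h3⟩
    refine ⟨fun s => ⟨x s, h2 s⟩, ?_, ?_⟩
    · intro s t hst
      exact h1 hst
    · intro s t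
      obtain ⟨a, rfl⟩ := hc' s
      obtain ⟨b, rfl⟩ := hc' t
      have hq : StrictMono (fun t => q (c t)) := fun s t h => hc s t h
      have e1 := h3.lt_iff_lt (a := a) (b := b)
      have e2 := hq.lt_iff_lt (a := a) (b := b)
      rw [e2, ← e1, Fin.lt_def]
      have f1 : fn π (x (c a)) = _ := fn_fin π ⟨x (c a), h2 _⟩
      have f2 : fn π (x (c b)) = _ := fn_fin π ⟨x (c b), h2 _⟩
      rw [f1, f2]

/-- five places with a chain of values -/
def Ch (n : ℕ) (f : ℕ → ℕ) (c : Fin 5 → Fin 5) : Prop :=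
  ∃ x0 x1 x2 x3 x4 : ℕ, x0 < x1 ∧ x1 < x2 ∧ x2 < x3 ∧ x3 < x4 ∧ x4 < n ∧
    f (![x0, x1, x2, x3, x4] (c 0)) < f (![x0, x1, x2, x3, x4] (c 1)) ∧
    f (![x0, x1, x2, x3, x4] (c 1)) < f (![x0, x1, x2, x3, x4] (c 2)) ∧
    f (![x0, x1, x2, x3, x4] (c 2)) < f (![x0, x1, x2, x3, x4] (c 3)) ∧
    f (![x0, x1, x2, x3, x4] (c 3)) < f (![x0, x1, x2, x3, x4] (c 4))

lemma contains_ch (q : Fin 5 → ℕ) (c : Fin 5 → Fin 5) (hc : ∀ s t, s < t → q (c s) < q (c t))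
    (hc' : ∀ s, ∃ t, c t = s) (π : Equiv.Perm (Fin n)) : Contains q π ↔ Ch n (fn π) c := by
  rw [contains_iff q c hc hc']
  constructor
  · rintro ⟨x, h1, h2, h3⟩
    have hx : (![x 0, x 1, x 2, x 3, x 4] : Fin 5 → ℕ) = x := by
      ext s
      fin_cases s <;> rfl
    refine ⟨x 0, x 1, x 2, x 3, x 4, h1 (by decide), h1 (by decide), h1 (by decide),
      h1 (by decide), h2 4, ?_⟩
    rw [hx]
    exact ⟨h3 (by decide), h3 (by decide), h3 (by decide), h3 (by decide)⟩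
  · rintro ⟨x0, x1, x2, x3, x4, a1, a2, a3, a4, a5, b1, b2, b3, b4⟩
    refine ⟨![x0, x1, x2, x3, x4], ?_, ?_, ?_⟩
    · rw [Fin.strictMono_iff_lt_succ]
      intro i
      fin_cases i <;> simpa
    · intro s
      fin_cases s <;> simp <;> omega
    · rw [Fin.strictMono_iff_lt_succ]
      intro i
      fin_cases i
      · exact b1
      · exact b2
      · exact b3
      · exact b4

/-- the upper part `21` -/
def R2 (X F : Fin 2 → ℕ) : Prop := X 0 < X 1 ∧ F 1 < F 0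

/-- the upper part: a point with two points to its upper right -/
def R3 (X F : Fin 3 → ℕ) : Prop := X 0 < X 1 ∧ X 1 < X 2 ∧ F 0 < F 1 ∧ F 0 < F 2

lemma lam2 {f : ℕ → ℕ} {x v : ℕ} : Lam n R2 f x v ↔
    ∃ j k, x < j ∧ j < k ∧ k < n ∧ v < f k ∧ f k < f j := by
  constructor
  · rintro ⟨X, h1, h2, h3⟩
    exact ⟨X 0, X 1, (h1 0).1, h2, (h1 1).2.1, (h1 1).2.2, h3⟩
  · rintro ⟨j, k, h1, h2, h3, h4, h5⟩
    refine ⟨![j, k], ?_, h2, h5⟩
    intro s
    fin_cases s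
    · simp; omega
    · simp; omega

lemma lam3 {f : ℕ → ℕ} {x v : ℕ} : Lam n R3 f x v ↔
    ∃ j k l, x < j ∧ j < k ∧ k < l ∧ l < n ∧ v < f j ∧ f j < f k ∧ f j < f l := by
  constructor
  · rintro ⟨X, h1, h2, h3, h4, h5⟩
    exact ⟨X 0, X 1, X 2, (h1 0).1, h2, h3, (h1 2).2.1, (h1 0).2.2, h4, h5⟩
  · rintro ⟨j, k, l, h1, h2, h3, h4, h5, h6, h7⟩
    refine ⟨![j, k, l], ?_, h2, h3, h6, h7⟩
    intro s
    fin_cases s
    · simp; omega
    · simp; omega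
    · simp; omega

lemma fn_ne (π : Equiv.Perm (Fin n)) {a b : ℕ} (ha : a < n) (hb : b < n) (h : a ≠ b) :
    fn π a < fn π b ∨ fn π b < fn π a := by
  rcases lt_trichotomy (fn π a) (fn π b) with h1 | h1 | h1
  · exact Or.inl h1
  · exact absurd (fn_inj π a ha b hb h1) h
  · exact Or.inr h1

lemma iff_A12 (π : Equiv.Perm (Fin n)) :
    (¬ Contains ![1, 2, 3, 4, 5] π ∧ ¬ Contains ![1, 2, 3, 5, 4] π) ↔ A12 n R3 (fn π) := by
  rw [contains_ch ![1, 2, 3, 4, 5] ![0, 1, 2, 3, 4] (by decide) (by decide),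
    contains_ch ![1, 2, 3, 5, 4] ![0, 1, 2, 4, 3] (by decide) (by decide)]
  constructor
  · rintro ⟨h1, h2⟩ i j hij hl hlt
    obtain ⟨a, b, c, a1, a2, a3, a4, a5, a6, a7⟩ := lam3.1 hl
    rcases fn_ne π (show b < n by omega) a4 (by omega) with h | h
    · exact h1 ⟨i, j, a, b, c, hij, a1, a2, a3, a4, hlt, a5, a6, h⟩
    · exact h2 ⟨i, j, a, b, c, hij, a1, a2, a3, a4, hlt, a5, a7, h⟩
  · intro hA
    constructor
    · rintro ⟨x0, x1, x2, x3, x4, a1, a2, a3, a4, a5, b1, b2, b3, b4⟩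
      exact hA x0 x1 a1 (lam3.2 ⟨x2, x3, x4, a2, a3, a4, a5, b2, b3, lt_trans b3 b4⟩) b1
    · rintro ⟨x0, x1, x2, x3, x4, a1, a2, a3, a4, a5, b1, b2, b3, b4⟩
      exact hA x0 x1 a1 (lam3.2 ⟨x2, x3, x4, a2, a3, a4, a5, b2, lt_trans b3 b4, b3⟩) b1

lemma iff_A21 (π : Equiv.Perm (Fin n)) :
    (¬ Contains ![2, 1, 3, 4, 5] π ∧ ¬ Contains ![2, 1, 3, 5, 4] π) ↔ A21 n R3 (fn π) := by
  rw [contains_ch ![2, 1, 3, 4, 5] ![1, 0, 2, 3, 4] (by decide) (by decide),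
    contains_ch ![2, 1, 3, 5, 4] ![1, 0, 2, 4, 3] (by decide) (by decide)]
  constructor
  · rintro ⟨h1, h2⟩ i j hij hlt hl
    obtain ⟨a, b, c, a1, a2, a3, a4, a5, a6, a7⟩ := lam3.1 hl
    rcases fn_ne π (show b < n by omega) a4 (by omega) with h | h
    · exact h1 ⟨i, j, a, b, c, hij, a1, a2, a3, a4, hlt, a5, a6, h⟩
    · exact h2 ⟨i, j, a, b, c, hij, a1, a2, a3, a4, hlt, a5, a7, h⟩
  · intro hA
    constructor
    · rintro ⟨x0, x1, x2, x3, x4, a1, a2, a3, a4, a5, b1, b2, b3, b4⟩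
      exact hA x0 x1 a1 b1 (lam3.2 ⟨x2, x3, x4, a2, a3, a4, a5, b2, b3, lt_trans b3 b4⟩)
    · rintro ⟨x0, x1, x2, x3, x4, a1, a2, a3, a4, a5, b1, b2, b3, b4⟩
      exact hA x0 x1 a1 b1 (lam3.2 ⟨x2, x3, x4, a2, a3, a4, a5, b2, lt_trans b3 b4, b3⟩)

lemma iff_PP (π : Equiv.Perm (Fin n)) :
    (¬ Contains ![1, 2, 3, 5, 4] π ∧ ¬ Contains ![2, 1, 3, 5, 4] π) ↔
      ∀ x < n, Low n R2 (fn π) x → code true n R2 (fn π) x ≤ 1 := by
  classical
  rw [contains_ch ![1, 2, 3, 5, 4] ![0, 1, 2, 4, 3] (by decide) (by decide),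
    contains_ch ![2, 1, 3, 5, 4] ![1, 0, 2, 4, 3] (by decide) (by decide)]
  constructor
  · rintro ⟨h1, h2⟩ x hx hl
    by_contra hc
    obtain ⟨j, k, c1, c2, c3, c4, c5⟩ := lam2.1 hl
    unfold code at hc
    rw [not_le, Finset.one_lt_card] at hc
    obtain ⟨a, ha, b, hb, hab⟩ := hc
    simp only [mem_filter, mem_range, ExGen.cmp, if_true] at ha hb
    rcases Nat.lt_or_gt_of_ne hab with h | h
    · rcases fn_ne π (show a < n by omega) (show b < n by omega) hab with h3 | h3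
      · exact h1 ⟨a, b, x, j, k, h, hb.1, c1, c2, c3, h3, hb.2.1, c4, c5⟩
      · exact h2 ⟨a, b, x, j, k, h, hb.1, c1, c2, c3, h3, ha.2.1, c4, c5⟩
    · rcases fn_ne π (show a < n by omega) (show b < n by omega) hab with h3 | h3
      · exact h2 ⟨b, a, x, j, k, h, ha.1, c1, c2, c3, h3, hb.2.1, c4, c5⟩
      · exact h1 ⟨b, a, x, j, k, h, ha.1, c1, c2, c3, h3, ha.2.1, c4, c5⟩
  · intro hA
    have main : ∀ x0 x1 x2 x3 x4 : ℕ, x0 < x1 → x1 < x2 → x2 < x3 → x3 < x4 → x4 < n →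
        fn π x0 < fn π x2 → fn π x1 < fn π x2 → fn π x2 < fn π x4 → ¬ fn π x4 < fn π x3 := by
      intro x0 x1 x2 x3 x4 a1 a2 a3 a4 a5 b1 b2 b3 b4
      have hl : Low n R2 (fn π) x2 := lam2.2 ⟨x3, x4, a3, a4, a5, b3, b4⟩
      have h1 := hA x2 (by omega) hl
      apply absurd h1
      unfold code
      rw [not_le, Finset.one_lt_card]
      refine ⟨x0, ?_, x1, ?_, by omega⟩
      · rw [mem_filter, mem_range]
        exact ⟨by omega, by simpa [ExGen.cmp] using b1, hl.mono le_rfl b1.le⟩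
      · rw [mem_filter, mem_range]
        exact ⟨by omega, by simpa [ExGen.cmp] using b2, hl.mono le_rfl b2.le⟩
    constructor
    · rintro ⟨x0, x1, x2, x3, x4, a1, a2, a3, a4, a5, b1, b2, b3, b4⟩
      exact main x0 x1 x2 x3 x4 a1 a2 a3 a4 a5 (lt_trans b1 b2) b2 b3 b4
    · rintro ⟨x0, x1, x2, x3, x4, a1, a2, a3, a4, a5, b1, b2, b3, b4⟩
      exact main x0 x1 x2 x3 x4 a1 a2 a3 a4 a5 b2 (lt_trans b1 b2) b3 b4

lemma iff_QQ (π : Equiv.Perm (Fin n)) :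
    (¬ Contains ![3, 2, 1, 5, 4] π ∧ ¬ Contains ![2, 3, 1, 5, 4] π) ↔
      ∀ x < n, Low n R2 (fn π) x → code false n R2 (fn π) x ≤ 1 := by
  classical
  rw [contains_ch ![3, 2, 1, 5, 4] ![2, 1, 0, 4, 3] (by decide) (by decide),
    contains_ch ![2, 3, 1, 5, 4] ![2, 0, 1, 4, 3] (by decide) (by decide)]
  constructor
  · rintro ⟨h1, h2⟩ x hx hl
    by_contra hc
    unfold code at hc
    rw [not_le, Finset.one_lt_card] at hc
    obtain ⟨a, ha, b, hb, hab⟩ := hc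
    simp only [mem_filter, mem_range, ExGen.cmp, Bool.false_eq_true, if_false] at ha hb
    obtain ⟨j, k, c1, c2, c3, c4, c5⟩ := lam2.1 ha.2.2
    obtain ⟨j', k', d1, d2, d3, d4, d5⟩ := lam2.1 hb.2.2
    rcases Nat.lt_or_gt_of_ne hab with h | h
    · rcases fn_ne π (show a < n by omega) (show b < n by omega) hab with h3 | h3
      · exact h2 ⟨a, b, x, j', k', h, hb.1, d1, d2, d3, ha.2.1, h3, d4, d5⟩
      · exact h1 ⟨a, b, x, j, k, h, hb.1, c1, c2, c3, hb.2.1, h3, c4, c5⟩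
    · rcases fn_ne π (show a < n by omega) (show b < n by omega) hab with h3 | h3
      · exact h1 ⟨b, a, x, j', k', h, ha.1, d1, d2, d3, ha.2.1, h3, d4, d5⟩
      · exact h2 ⟨b, a, x, j, k, h, ha.1, c1, c2, c3, hb.2.1, h3, c4, c5⟩
  · intro hA
    have main : ∀ x0 x1 x2 x3 x4 : ℕ, x0 < x1 → x1 < x2 → x2 < x3 → x3 < x4 → x4 < n →
        fn π x2 < fn π x0 → fn π x2 < fn π x1 → fn π x0 < fn π x4 → fn π x1 < fn π x4 →
        ¬ fn π x4 < fn π x3 := by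
      intro x0 x1 x2 x3 x4 a1 a2 a3 a4 a5 b1 b2 b3 b3' b4
      have hl0 : Lam n R2 (fn π) x2 (fn π x0) := lam2.2 ⟨x3, x4, a3, a4, a5, b3, b4⟩
      have hl1 : Lam n R2 (fn π) x2 (fn π x1) := lam2.2 ⟨x3, x4, a3, a4, a5, b3', b4⟩
      have h1 := hA x2 (by omega) (hl0.mono le_rfl b1.le)
      apply absurd h1
      unfold code
      rw [not_le, Finset.one_lt_card]
      refine ⟨x0, ?_, x1, ?_, by omega⟩
      · rw [mem_filter, mem_range]
        exact ⟨by omega, by simpa [ExGen.cmp] using b1, hl0⟩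
      · rw [mem_filter, mem_range]
        exact ⟨by omega, by simpa [ExGen.cmp] using b2, hl1⟩
    constructor
    · rintro ⟨x0, x1, x2, x3, x4, a1, a2, a3, a4, a5, b1, b2, b3, b4⟩
      exact main x0 x1 x2 x3 x4 a1 a2 a3 a4 a5 (lt_trans b1 b2) b1 b3 (lt_trans b2 b3) b4
    · rintro ⟨x0, x1, x2, x3, x4, a1, a2, a3, a4, a5, b1, b2, b3, b4⟩
      exact main x0 x1 x2 x3 x4 a1 a2 a3 a4 a5 b1 (lt_trans b1 b2) (lt_trans b2 b3) b3 b4

open Classical in
lemma av_eq_card (p q : Fin 5 → ℕ) (P : Equiv.Perm (Fin n) → Prop)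
    (h : ∀ π, (¬ Contains p π ∧ ¬ Contains q π) ↔ P π) :
    av n p q = (univ.filter fun π => P π).card := by
  unfold av
  rw [Nat.card_eq_fintype_card, Fintype.card_subtype]
  congr 1
  ext π
  simp only [mem_filter, mem_univ, true_and]
  exact h π

/-- **Q1 of MP_b2be16_co**: `{45123, 45213}` and `{12345, 12354}` are Wilf-equivalent. -/
theorem result (n : ℕ) :
    av n ![4, 5, 1, 2, 3] ![4, 5, 2, 1, 3] = av n ![1, 2, 3, 4, 5] ![1, 2, 3, 5, 4] := by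
  classical
  -- reverse
  have s1 : av n ![4, 5, 1, 2, 3] ![4, 5, 2, 1, 3] = av n ![3, 2, 1, 5, 4] ![3, 1, 2, 5, 4] :=
    av_congr (Equiv.mulRight Fin.revPerm) (contains_rev (by decide)) (contains_rev (by decide))
  -- inverse
  let c1 : Equiv.Perm (Fin 5) := ⟨![2, 1, 0, 4, 3], ![2, 1, 0, 4, 3], by decide, by decide⟩
  let c2 : Equiv.Perm (Fin 5) := ⟨![2, 0, 1, 4, 3], ![1, 2, 0, 4, 3], by decide, by decide⟩
  have s2 : av n ![3, 2, 1, 5, 4] ![3, 1, 2, 5, 4] = av n ![3, 2, 1, 5, 4] ![2, 3, 1, 5, 4] :=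
    av_congr (Equiv.inv _) (contains_inv c1 (by decide) (by decide))
      (contains_inv c2 (by decide) (by decide))
  -- the exchange of codes
  have s3 : av n ![3, 2, 1, 5, 4] ![2, 3, 1, 5, 4] = av n ![1, 2, 3, 5, 4] ![2, 1, 3, 5, 4] := by
    rw [av_eq_card _ _ _ iff_QQ, av_eq_card _ _ _ iff_PP]
    have := exchange_code (n := n) (R := R2) 1
    convert this.symm
  -- reverse complement
  have s4 : av n ![1, 2, 3, 5, 4] ![2, 1, 3, 5, 4] = av n ![5, 4, 3, 1, 2] ![4, 5, 3, 1, 2] :=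
    av_congr (Equiv.mulLeft Fin.revPerm) (contains_compl (by decide)) (contains_compl (by decide))
  have s5 : av n ![5, 4, 3, 1, 2] ![4, 5, 3, 1, 2] = av n ![2, 1, 3, 4, 5] ![2, 1, 3, 5, 4] :=
    av_congr (Equiv.mulRight Fin.revPerm) (contains_rev (by decide)) (contains_rev (by decide))
  -- the exchange of `21` and `12`
  have s6 : av n ![2, 1, 3, 4, 5] ![2, 1, 3, 5, 4] = av n ![1, 2, 3, 4, 5] ![1, 2, 3, 5, 4] := by
    rw [av_eq_card _ _ _ iff_A21, av_eq_card _ _ _ iff_A12]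
    have := exchange (n := n) (R := R3)
    convert this.symm
  rw [s1, s2, s3, s4, s5, s6]

end Pool.Agent.Results.MP_b2be16_co.PairWilf
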